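import Pool.Agent.Helper62.NT.Goals

/-!
# Project NT (MP_8ff381_an), packet PEMB: the pieces embed (helper45)
-/

set_option autoImplicit false

noncomputable section

namespace Pool.Agent.Helper45.NT.PEMB

open Pool.Agent.Helper62.NT Pool.Agent.Helper84.TR Set

theorem s_pos {H : Type} [MetricSpace H] (D : CD H) (n : ℕ) : 0 < D.s n := by
  have h1 := D.hΔ
  have h2 : (0 : ℝ) < D.B := by
    have := D.hB
    exact_mod_cast (by omega : 0 < D.B)
  unfold CD.s
  positivity

theorem self_mem {H : Type} [MetricSpace H] (D : CD H) (n : ℕ) (v : H) : v ∈ D.Pc n v := by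
  refine ⟨by have := s_pos D n; linarith, ⟨le_rfl, D.R.res_dep v⟩, ?_⟩
  intro m z h1 h2
  exact absurd h2 (not_lt.2 h1)

theorem t (hRTB : S_RTB) (hTB : S_TB) : S_PEMB := by
  classical
  intro H _ D n k v hn hk hv
  have hTL : TL H := (hRTB H D.R).2.2.2.2.2.2.2.1
  have htb := hTB H D n k v hn hk hv
  have hvm := self_mem D n v
  have htb2 : TotallyBounded (univ : Set (D.Pc n v)) := by
    have h1 : IsUniformInducing (Subtype.val : D.Pc n v → H) := isUniformEmbedding_subtype_val.isUniformInducing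
    rw [← totallyBounded_image_iff h1, image_univ, Subtype.range_coe]
    exact htb
  have hTL2 : TL (D.Pc n v) := fun x y z w => hTL x y z w
  obtain ⟨f, hf⟩ := embG (n := 1) (⟨v, hvm⟩ : D.Pc n v) (fun _ => D.Pc n v) (fun _ => hTL2)
    (fun _ x => x) (fun x y => by simp) (fun m _ => htb2.subset (subset_univ _))
  refine ⟨fun p => if h : p ∈ D.Pc n v then f ⟨p, h⟩ - f ⟨v, hvm⟩ else 0, ?_, ?_⟩
  · simp only [dif_pos hvm, sub_self]
  · intro p hp q hq
    simp only [dif_pos hp, dif_pos hq, dist_sub_right]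
    exact hf ⟨p, hp⟩ ⟨q, hq⟩

end Pool.Agent.Helper45.NT.PEMB
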